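import Pool.Agent.H80.PZ.Zero
import Pool.Agent.H80.PZ.One2

/-!
# The height of the lowest non-torsion point of quadratic twists, at most one rational root

`badZ A B X ε` is the set of the squarefree `d ≤ X` such that the curve `E_d : d y² = x³ + A x + B` has a rational point `P` of infinite
order with `exp (canHeight P) ≤ max(m^(3/2), (d m)^(1/2)) X^(-ε)` for a divisor `m` of `d` such that `x³ + A x + B` has no root modulo any
prime factor of `m`.

Let `e` be the only rational root of `x³ + A x + B`.  `bad1Z A B e X ε` is the set of the squarefree `d ≤ X` such that for some `Y` the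
curve `E_d` has a rational point `P` of infinite order with `exp (canHeight P) ≤ Y`, that is `η_d ≤ Y`, and
`Y ≤ max(d_2^(3/4), (d max(d_0, d_1))^(1/2), max(d_0, d_1)^(3/2)) X^(-ε)` for all factorizations `d = d_0 d_1 d_2` such that the
discriminant `-(3 e² + 4 A)` of the quadratic factor is a square modulo every prime factor of `d_2`.
-/

set_option autoImplicit false

namespace Pool.Agent.Results.MP_c60b8d_nt.FactorTwists

open Pool.Agent.H12.EH Pool.Agent.H80.PZ

/-- (1) For every curve and `ε > 0` there are `δ, C > 0` such that at most `C X^(1-δ)` squarefree `d ≤ X` satisfy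
`η_d ≤ max(m^(3/2), (d m)^(1/2)) X^(-ε)`, `m` the product of the primes `p ∣ d` modulo which `x³ + A x + B` has no root.
(2) If `e` is the only rational root of `x³ + A x + B`, there are `δ, C > 0` such that at most `C X^(1-δ)` squarefree `d ≤ X` satisfy
`η_d ≤ f(d) X^(-ε)`, `f(d)` the minimum of `max(d_2^(3/4), (d max(d_0, d_1))^(1/2), max(d_0, d_1)^(3/2))` over the `d = d_0 d_1 d_2`
such that `-(3 e² + 4 A)` is a square modulo every prime factor of `d_2`. -/
theorem result (A B : ℤ) (hD : 4 * A ^ 3 + 27 * B ^ 2 ≠ 0) (ε : ℝ) (hε : 0 < ε) :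
    (∃ δ C : ℝ, 0 < δ ∧ 0 < C ∧ ∀ X : ℝ, 1 ≤ X → ((badZ A B X ε).ncard : ℝ) ≤ C * X ^ (1 - δ)) ∧
    ∀ e : ℤ, e ^ 3 + A * e + B = 0 → nroots A B = 1 →
      ∃ δ C : ℝ, 0 < δ ∧ 0 < C ∧ ∀ X : ℝ, 1 ≤ X → ((bad1Z A B e X ε).ncard : ℝ) ≤ C * X ^ (1 - δ) :=
  ⟨zeroZ A B hD ε hε, fun e he hr => oneZ A B e hD he hr ε hε⟩

end Pool.Agent.Results.MP_c60b8d_nt.FactorTwists
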