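import Pool.Agent.H80.PT.CorF

/-!
# The height of the lowest non-torsion point of quadratic twists by numbers with large factors

`lowF A B X Y D` is the set of the squarefree `d ≤ X` such that `E_d : d y² = x³ + A x + B` has a rational point `P` of infinite
order with `exp (canHeight P) ≤ Y`, that is `η_d ≤ Y`, and such that every factorization of `d` in four factors has a factor `≥ d / D`
(for example `d = q m`, `q` prime, `m ≤ D`).
`badF A B X ε` is the set of the squarefree `d ≤ X` with `η_d ≤ max(M^(3/2), (d M)^(1/2)) X^(-ε)` for some `M ≥ 1` such that every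
factorization of `d` in four factors has a factor `≥ M`; the largest such `M` is the minimum `μ(d)` of `max d_i` over
`d = d_1 d_2 d_3 d_4`.
-/

set_option autoImplicit false

namespace Pool.Agent.Results.MP_c60b8d_nt.LargePrimeTwists

open Pool.Agent.H12.EH Pool.Agent.H80.PT

/-- Let `x³ + A x + B` have three rational roots and `ε > 0`.  There is `C` such that `η_d ≤ Y` for at most
`C X^ε (√X + min(D Y^(2/3), D + √D Y))` squarefree `d ≤ X` of which every factorization in four factors has a factor `≥ d / D`, for all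
`X, Y, D ≥ 1`; and there are `δ, C > 0` such that at most `C X^(1-δ)` squarefree `d ≤ X` satisfy
`η_d ≤ max(μ^(3/2), (d μ)^(1/2)) X^(-ε)`, `μ = μ(d)` the minimum of `max d_i` over `d = d_1 d_2 d_3 d_4`. -/
theorem result (A B : ℤ) (hD : 4 * A ^ 3 + 27 * B ^ 2 ≠ 0) (hr : nroots A B = 3) (ε : ℝ) (hε : 0 < ε) :
    (∃ C : ℝ, 0 < C ∧ ∀ X Y D : ℝ, 1 ≤ X → 1 ≤ Y → 1 ≤ D →
      ((lowF A B X Y D).ncard : ℝ) ≤
        C * X ^ ε * (X ^ (1 / 2 : ℝ) + min (D * Y ^ (2 / 3 : ℝ)) (D + D ^ (1 / 2 : ℝ) * Y))) ∧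
    ∃ δ C : ℝ, 0 < δ ∧ 0 < C ∧ ∀ X : ℝ, 1 ≤ X → ((badF A B X ε).ncard : ℝ) ≤ C * X ^ (1 - δ) :=
  ⟨mainF A B hD hr ε hε, corF A B hD hr ε hε⟩

end Pool.Agent.Results.MP_c60b8d_nt.LargePrimeTwists
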