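import Pool.Agent.H12.EH.Main

/-!
# The height of the lowest non-torsion point of quadratic twists: exponents 1/2, 9/16, 5/8

`low A B X Y` is the set of the squarefree `d ≤ X` such that `E_d : d y² = x³ + A x + B` has a rational point `P` of
infinite order with `exp (canHeight P) ≤ Y`, that is `η_d ≤ Y`.
-/

set_option autoImplicit false

namespace Pool.Agent.Results.MP_c60b8d_nt.LowestPointExponents

open Pool.Agent.H12.EH

/-- Let `c = expo A B` be `1/2`, `9/16`, `5/8` if `x³ + A x + B` has 0, 1, 3 rational roots.  For every `ε > 0` there are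
`δ, C > 0` such that `η_d ≤ X^(c - ε)` for at most `C X^(1 - δ)` squarefree `d ≤ X`. -/
theorem result (A B : ℤ) (hD : 4 * A ^ 3 + 27 * B ^ 2 ≠ 0) (ε : ℝ) (hε : 0 < ε) :
    ∃ δ C : ℝ, 0 < δ ∧ 0 < C ∧ ∀ X : ℝ, 1 ≤ X →
      ((low A B X (X ^ (expo A B - ε))).ncard : ℝ) ≤ C * X ^ (1 - δ) :=
  main A B hD ε hε

end Pool.Agent.Results.MP_c60b8d_nt.LowestPointExponents
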