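import Pool.Agent.H80.SH.Low2

/-!
# The number of quadratic twists with a point of small height

`low A B X Y` is the set of the squarefree `d ≤ X` such that `E_d : d y² = x³ + A x + B` has a rational point `P` of
infinite order with `exp (canHeight P) ≤ Y`, that is `η_d ≤ Y`.
-/

set_option autoImplicit false

namespace Pool.Agent.Results.MP_c60b8d_nt.SmallHeightTwists

open Pool.Agent.H12.EH Pool.Agent.H80.SH

/-- For every curve and every `ε > 0` there is `C` such that `η_d ≤ Y` for at most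
`C X^ε (X^(1/2) + min(Y^(7/3), X^(1/4) Y^(3/2)))` squarefree `d ≤ X`, for all `X, Y ≥ 1`. -/
theorem result (A B : ℤ) (hD : 4 * A ^ 3 + 27 * B ^ 2 ≠ 0) (ε : ℝ) (hε : 0 < ε) :
    ∃ C : ℝ, 0 < C ∧ ∀ X Y : ℝ, 1 ≤ X → 1 ≤ Y →
      ((low A B X Y).ncard : ℝ) ≤
        C * X ^ ε * (X ^ (1 / 2 : ℝ) + min (Y ^ (7 / 3 : ℝ)) (X ^ (1 / 4 : ℝ) * Y ^ (3 / 2 : ℝ))) :=
  lowH2 A B hD ε hε

end Pool.Agent.Results.MP_c60b8d_nt.SmallHeightTwists
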